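import Pool.Agent.Helper9.TC.Defs
import Pool.Agent.Helper14.TC.Rough

/-!
Block Q of the proof for MP_1181b9_nt: very large primes, squares, decomposition of the non-cyclic
numbers.
-/

set_option autoImplicit false
open Finset Real

namespace Pool.Agent.Helper27.TC

open Pool.Agent.Helper9.TC

/-- Odd numbers in an open interval. -/
lemma card_odd_le (F : Finset ℕ) (a b : ℝ) (hab : a ≤ b)
    (h : ∀ k ∈ F, a < k ∧ (k : ℝ) < b) (hodd : ∀ k ∈ F, Odd k) :
    (F.card : ℝ) ≤ (b - a) / 2 + 1 := by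
  rcases F.eq_empty_or_nonempty with h0 | hne
  · rw [h0, Finset.card_empty, Nat.cast_zero]
    linarith
  set k0 := F.min' hne with hk0
  set k1 := F.max' hne with hk1
  have m0 : k0 ∈ F := F.min'_mem hne
  have m1 : k1 ∈ F := F.max'_mem hne
  have hle : k0 ≤ k1 := F.min'_le _ m1
  have hsub : F ⊆ (Finset.range ((k1 - k0) / 2 + 1)).image (fun i => k0 + 2 * i) := by
    intro k hk
    have h1 : k0 ≤ k := F.min'_le _ hk
    have h2 : k ≤ k1 := F.le_max' _ hk
    obtain ⟨c, hc⟩ := hodd k hk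
    obtain ⟨c0, hc0⟩ := hodd k0 m0
    rw [Finset.mem_image]
    refine ⟨(k - k0) / 2, ?_, by omega⟩
    rw [Finset.mem_range]
    omega
  have hcard : F.card ≤ (k1 - k0) / 2 + 1 :=
    (Finset.card_le_card hsub).trans (Finset.card_image_le.trans (by rw [Finset.card_range]))
  have h3 : (((k1 - k0) / 2 : ℕ) : ℝ) ≤ ((k1 : ℝ) - k0) / 2 := by
    have : ((k1 - k0) / 2) * 2 ≤ k1 - k0 := Nat.div_mul_le_self _ _
    have h4 : (((k1 - k0) / 2 : ℕ) : ℝ) * 2 ≤ ((k1 - k0 : ℕ) : ℝ) := by exact_mod_cast this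
    rw [Nat.cast_sub hle] at h4
    linarith
  have h4 : (F.card : ℝ) ≤ (((k1 - k0) / 2 : ℕ) : ℝ) + 1 := by exact_mod_cast hcard
  have h5 := (h k0 m0).1
  have h6 := (h k1 m1).2
  linarith

lemma odd_of_prime_gt {p z : ℕ} (hp : p.Prime) (hz : 2 ≤ z) (h : z < p) : Odd p :=
  hp.odd_of_ne_two (by omega)

lemma rough_odd {z m : ℕ} (hz : 2 ≤ z) (h : Rough z m) : Odd m := by
  rw [← Nat.not_even_iff_odd]
  intro he
  have := h 2 Nat.prime_two he.two_dvd
  omega

/-- The same pair cannot be a hit for two different odd primes. -/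
lemma hit_unique {z n p p' k j : ℕ} (hodd : Odd p) (hodd' : Odd p') (hlt : p < p')
    (h1 : Hit z n p k j) (h2 : Hit z n p' k j) : False := by
  obtain ⟨hk, hj, hje, -, ha, hb⟩ := h1
  obtain ⟨-, -, -, -, hc, hd⟩ := h2
  have hge : p + 2 ≤ p' := by
    obtain ⟨x, hx⟩ := hodd
    obtain ⟨y, hy⟩ := hodd'
    omega
  have hp0 : 0 < p := hodd.pos
  -- `p ≤ n`
  have hpn : p ≤ n := by
    by_contra hcon
    push Not at hcon
    have e1 : p * p ≤ p * k * (1 + p * j) := by
      calc p * p = p * 1 * (p * 1) := by ring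
        _ ≤ p * k * (p * j) := Nat.mul_le_mul (Nat.mul_le_mul_left _ hk) (Nat.mul_le_mul_left _ hj)
        _ ≤ _ := Nat.mul_le_mul_left _ (by omega)
    have e2 : (n + 1) * (n + 1) ≤ p * p := Nat.mul_le_mul hcon hcon
    have e3 : (n + 1) ^ 2 = (n + 1) * (n + 1) := by ring
    omega
  have e1 : p * k * (1 + p * j) + (2 * k + 4 * (k * j * p)) ≤ p' * k * (1 + p' * j) := by
    calc p * k * (1 + p * j) + (2 * k + 4 * (k * j * p))
        ≤ (p + 2) * k * (1 + (p + 2) * j) := by nlinarith [Nat.zero_le (k * j)]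
      _ ≤ _ := Nat.mul_le_mul (Nat.mul_le_mul_right _ hge)
          (Nat.add_le_add_left (Nat.mul_le_mul_right _ hge) _)
  have e2 : 2 * k + 4 * (k * j * p) < 2 * n := by nlinarith
  have e3 : p * (2 * k + 4 * (k * j * p)) < n * (2 * n) := by
    calc p * (2 * k + 4 * (k * j * p)) < p * (2 * n) := Nat.mul_lt_mul_of_pos_left e2 hp0
      _ ≤ n * (2 * n) := Nat.mul_le_mul_right _ hpn
  nlinarith

/-- The even numbers `t` with `0 < t < (n+1)^2 / P^2`. -/
lemma card_even_le (n P : ℕ) (hP : 0 < P) (T : Finset ℕ)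
    (hT : ∀ t ∈ T, Even t ∧ 0 < t ∧ t * P ^ 2 < (n + 1) ^ 2) :
    (T.card : ℝ) ≤ ((n : ℝ) + 1) ^ 2 / (2 * (P : ℝ) ^ 2) := by
  have hsub : T ⊆ (Finset.Icc 1 ((n + 1) ^ 2 / (2 * P ^ 2))).image (fun s => 2 * s) := by
    intro t ht
    obtain ⟨⟨c, hc⟩, h0, h1⟩ := hT t ht
    rw [Finset.mem_image]
    refine ⟨c, ?_, by omega⟩
    rw [Finset.mem_Icc]
    refine ⟨by omega, ?_⟩
    rw [Nat.le_div_iff_mul_le (by positivity)]
    have : c * (2 * P ^ 2) = t * P ^ 2 := by rw [hc]; ring
    omega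
  have hcard : T.card ≤ (n + 1) ^ 2 / (2 * P ^ 2) := by
    refine (Finset.card_le_card hsub).trans (Finset.card_image_le.trans ?_)
    rw [Nat.card_Icc, Nat.add_sub_cancel]
  calc (T.card : ℝ) ≤ (((n + 1) ^ 2 / (2 * P ^ 2) : ℕ) : ℝ) := by exact_mod_cast hcard
    _ ≤ (((n + 1) ^ 2 : ℕ) : ℝ) / ((2 * P ^ 2 : ℕ) : ℝ) := Nat.cast_div_le
    _ = _ := by push_cast; ring

/-- Very large primes; the divisor bound of block D is a hypothesis. -/
theorem hits_pairs_aux (z n P2 r M : ℕ) (hz : 2 ≤ z) (hP : z ≤ P2)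
    (hD : ∀ t : ℕ, 0 < t → t < (z + 1) ^ (r + 1) → Nat.card {k : ℕ // k ∣ t ∧ Rough z k} ≤ 2 ^ r)
    (hr : ((n : ℝ) + 1) ^ 2 / (P2 : ℝ) ^ 2 ≤ ((z : ℝ) + 1) ^ (r + 1)) :
    ∑ p ∈ primesIoc P2 M, ((hits z n p).card : ℝ) ≤
      2 ^ r * (((n : ℝ) + 1) ^ 2 / (2 * (P2 : ℝ) ^ 2)) := by
  classical
  have hmem : ∀ p ∈ primesIoc P2 M, P2 < p ∧ p.Prime := by
    intro p hp
    unfold primesIoc at hp
    rw [Finset.mem_filter, Finset.mem_Ioc] at hp
    exact ⟨hp.1.1, hp.2⟩
  have hhit : ∀ p, ∀ x ∈ hits z n p, Hit z n p x.1 x.2 := by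
    intro p x hx
    unfold hits at hx
    exact (Finset.mem_filter.mp hx).2
  have hdisj : ∀ p ∈ primesIoc P2 M, ∀ p' ∈ primesIoc P2 M, p ≠ p' →
      Disjoint (hits z n p) (hits z n p') := by
    intro p hp p' hp' hne
    rw [Finset.disjoint_left]
    intro x hx hx'
    have o1 := odd_of_prime_gt (hmem p hp).2 hz (lt_of_le_of_lt hP (hmem p hp).1)
    have o2 := odd_of_prime_gt (hmem p' hp').2 hz (lt_of_le_of_lt hP (hmem p' hp').1)
    rcases lt_or_gt_of_ne hne with h | h
    · exact hit_unique o1 o2 h (hhit p x hx) (hhit p' x hx')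
    · exact hit_unique o2 o1 h (hhit p' x hx') (hhit p x hx)
  have hcard := Finset.card_biUnion hdisj
  set T : Finset ℕ := (Finset.range ((n + 1) ^ 2)).filter
    (fun t => Even t ∧ 0 < t ∧ t * P2 ^ 2 < (n + 1) ^ 2) with hT
  have hsub : (primesIoc P2 M).biUnion (fun p => hits z n p) ⊆
      T.biUnion (fun t => (t.divisors.filter (Rough z)).image (fun k => (k, t / k))) := by
    intro x hx
    rw [Finset.mem_biUnion] at hx
    obtain ⟨p, hp, hxp⟩ := hx
    obtain ⟨hk, hj, hje, hro, ha, hb⟩ := hhit p x hxp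
    have hpP := (hmem p hp).1
    have hPpos : 0 < P2 := by omega
    have h1 : x.1 * x.2 * P2 ^ 2 < (n + 1) ^ 2 := by
      calc x.1 * x.2 * P2 ^ 2 ≤ x.1 * x.2 * p ^ 2 :=
            Nat.mul_le_mul_left _ (Nat.pow_le_pow_left hpP.le _)
        _ ≤ p * x.1 * (1 + p * x.2) := by nlinarith [Nat.zero_le (p * x.1)]
        _ < _ := hb
    have hpos : 0 < x.1 * x.2 := Nat.mul_pos hk hj
    rw [Finset.mem_biUnion]
    refine ⟨x.1 * x.2, ?_, ?_⟩
    · rw [hT, Finset.mem_filter, Finset.mem_range]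
      refine ⟨?_, hje.mul_left _, hpos, h1⟩
      calc x.1 * x.2 ≤ x.1 * x.2 * P2 ^ 2 := Nat.le_mul_of_pos_right _ (by positivity)
        _ < _ := h1
    · rw [Finset.mem_image]
      refine ⟨x.1, ?_, ?_⟩
      · rw [Finset.mem_filter, Nat.mem_divisors]
        exact ⟨⟨Dvd.intro _ rfl, hpos.ne'⟩, hro⟩
      · rw [Nat.mul_div_cancel_left _ hk]
  have hTb : ∀ t ∈ T, ((t.divisors.filter (Rough z)).image (fun k => (k, t / k))).card ≤ 2 ^ r := by
    intro t ht
    rw [hT, Finset.mem_filter] at ht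
    obtain ⟨-, -, ht0, ht1⟩ := ht
    have hlt : t < (z + 1) ^ (r + 1) := by
      have hPpos : (0 : ℝ) < (P2 : ℝ) ^ 2 := by
        have : 0 < P2 := by omega
        positivity
      have h2 : (t : ℝ) < ((z : ℝ) + 1) ^ (r + 1) := by
        refine lt_of_lt_of_le ?_ hr
        rw [lt_div_iff₀ hPpos]
        exact_mod_cast ht1
      exact_mod_cast h2
    have h3 := hD t ht0 hlt
    have h4 : Nat.card {k : ℕ // k ∣ t ∧ Rough z k} = (t.divisors.filter (Rough z)).card := by
      rw [Nat.subtype_card]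
      intro k
      rw [Finset.mem_filter, Nat.mem_divisors]
      constructor
      · rintro ⟨⟨h, -⟩, h'⟩; exact ⟨h, h'⟩
      · rintro ⟨h, h'⟩; exact ⟨⟨h, ht0.ne'⟩, h'⟩
    exact Finset.card_image_le.trans (h4 ▸ h3)
  have hfin : ((primesIoc P2 M).biUnion (fun p => hits z n p)).card ≤ T.card * 2 ^ r :=
    (Finset.card_le_card hsub).trans (Finset.card_biUnion_le_card_mul _ _ _ hTb)
  have hPpos : 0 < P2 := by omega
  have hTc := card_even_le n P2 hPpos T (by
    intro t ht
    rw [hT, Finset.mem_filter] at ht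
    exact ht.2)
  calc ∑ p ∈ primesIoc P2 M, ((hits z n p).card : ℝ)
      = (((primesIoc P2 M).biUnion (fun p => hits z n p)).card : ℝ) := by
        rw [hcard]; push_cast; rfl
    _ ≤ ((T.card * 2 ^ r : ℕ) : ℝ) := by exact_mod_cast hfin
    _ = 2 ^ r * (T.card : ℝ) := by push_cast; ring
    _ ≤ _ := mul_le_mul_of_nonneg_left hTc (by positivity)

/-- Very large primes. -/
theorem hits_pairs (z n P2 r M : ℕ) (hz : 2 ≤ z) (hn : 1 ≤ n) (hP : z ≤ P2)
    (hr : ((n : ℝ) + 1) ^ 2 / (P2 : ℝ) ^ 2 ≤ ((z : ℝ) + 1) ^ (r + 1)) :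
    ∑ p ∈ primesIoc P2 M, ((hits z n p).card : ℝ) ≤
      2 ^ r * (((n : ℝ) + 1) ^ 2 / (2 * (P2 : ℝ) ^ 2)) :=
  hits_pairs_aux z n P2 r M hz hP
    (fun t ht h => Pool.Agent.Helper14.TC.card_rough_divisors z t r ht h) hr

open Classical in
theorem squares (z n P1 : ℕ) (hz : 2 ≤ z) (hn : 1 ≤ n) (hP : z ≤ P1) :
    (((roughSet z n).filter (fun m => ∃ p : ℕ, p.Prime ∧ z < p ∧ p ^ 2 ∣ m)).card : ℝ) ≤
      (2 * (n : ℝ) + 1) / 2 * (∑ p ∈ primesIoc z P1, 1 / (p : ℝ) ^ 2) + ((primesIoc z P1).card : ℝ) +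
      ((n : ℝ) + 1) ^ 2 / (2 * (P1 : ℝ) ^ 2) + 1 := by
  set A : ℕ → Finset ℕ := fun p => (roughSet z n).filter (fun m => p ^ 2 ∣ m) with hA
  set B : Finset ℕ := (roughSet z n).filter (fun m => ∃ p : ℕ, p.Prime ∧ P1 < p ∧ p ^ 2 ∣ m) with hB
  have hrs : ∀ m ∈ roughSet z n, n ^ 2 < m ∧ m < (n + 1) ^ 2 ∧ Rough z m := by
    intro m hm
    unfold roughSet at hm
    rw [Finset.mem_filter, Finset.mem_Ioo] at hm
    exact ⟨hm.1.1, hm.1.2, hm.2⟩
  have hsub : (roughSet z n).filter (fun m => ∃ p : ℕ, p.Prime ∧ z < p ∧ p ^ 2 ∣ m) ⊆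
      (primesIoc z P1).biUnion A ∪ B := by
    intro m hm
    rw [Finset.mem_filter] at hm
    obtain ⟨hm, p, hp, hzp, hd⟩ := hm
    rw [Finset.mem_union]
    by_cases h : p ≤ P1
    · left
      rw [Finset.mem_biUnion]
      refine ⟨p, ?_, ?_⟩
      · unfold primesIoc
        rw [Finset.mem_filter, Finset.mem_Ioc]
        exact ⟨⟨hzp, h⟩, hp⟩
      · rw [hA]
        exact Finset.mem_filter.mpr ⟨hm, hd⟩
    · right
      rw [hB]
      exact Finset.mem_filter.mpr ⟨hm, p, hp, not_le.mp h, hd⟩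
  -- the sets `A p`
  have hAc : ∀ p ∈ primesIoc z P1, ((A p).card : ℝ) ≤ (2 * (n : ℝ) + 1) / 2 * (1 / (p : ℝ) ^ 2) + 1 := by
    intro p hp
    unfold primesIoc at hp
    rw [Finset.mem_filter, Finset.mem_Ioc] at hp
    have hp0 : 0 < p := hp.2.pos
    have hp2 : (0 : ℝ) < (p : ℝ) ^ 2 := by positivity
    have hinj : Set.InjOn (fun m => m / p ^ 2) (A p : Set ℕ) := by
      intro m hm m' hm' h
      rw [Finset.mem_coe, hA, Finset.mem_filter] at hm hm'
      simp only at h
      rw [← Nat.div_mul_cancel hm.2, ← Nat.div_mul_cancel hm'.2, h]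
    rw [← Finset.card_image_of_injOn hinj]
    have := card_odd_le ((A p).image (fun m => m / p ^ 2)) ((n : ℝ) ^ 2 / (p : ℝ) ^ 2)
      (((n : ℝ) + 1) ^ 2 / (p : ℝ) ^ 2) (by gcongr; linarith) (by
        intro k hk
        rw [Finset.mem_image] at hk
        obtain ⟨m, hm, rfl⟩ := hk
        rw [hA, Finset.mem_filter] at hm
        obtain ⟨h1, h2, -⟩ := hrs m hm.1
        obtain ⟨k, rfl⟩ := hm.2
        rw [Nat.mul_div_cancel_left _ (by positivity)]
        constructor
        · rw [div_lt_iff₀ hp2]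
          have : (n : ℝ) ^ 2 < (p : ℝ) ^ 2 * k := by exact_mod_cast h1
          linarith
        · rw [lt_div_iff₀ hp2]
          have : (p : ℝ) ^ 2 * k < ((n : ℝ) + 1) ^ 2 := by exact_mod_cast h2
          linarith) (by
        intro k hk
        rw [Finset.mem_image] at hk
        obtain ⟨m, hm, rfl⟩ := hk
        rw [hA, Finset.mem_filter] at hm
        obtain ⟨-, -, h3⟩ := hrs m hm.1
        obtain ⟨k, rfl⟩ := hm.2
        rw [Nat.mul_div_cancel_left _ (by positivity)]
        exact Nat.Odd.of_mul_right (rough_odd hz h3))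
    refine this.trans (le_of_eq ?_)
    field_simp
    ring
  -- the set `B`
  have hBc : (B.card : ℝ) ≤ ((n : ℝ) + 1) ^ 2 / (2 * (P1 : ℝ) ^ 2) + 1 := by
    have hch : ∀ m ∈ B, ∃ p : ℕ, p.Prime ∧ P1 < p ∧ p ^ 2 ∣ m := by
      intro m hm
      rw [hB, Finset.mem_filter] at hm
      exact hm.2
    choose! f hf using hch
    have hP0 : 0 < P1 := by omega
    have hinj : Set.InjOn (fun m => m / (f m) ^ 2) (B : Set ℕ) := by
      have key : ∀ m ∈ B, ∀ m' ∈ B, m / (f m) ^ 2 = m' / (f m') ^ 2 → ¬ f m < f m' := by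
        intro m hm m' hm' h hlt
        obtain ⟨hp, hP1, k, hk⟩ := hf m hm
        obtain ⟨hp', hP1', k', hk'⟩ := hf m' hm'
        have hr := hrs m (Finset.mem_filter.mp (hB ▸ hm)).1
        have hr' := hrs m' (Finset.mem_filter.mp (hB ▸ hm')).1
        have e1 : m / (f m) ^ 2 = k := by
          nth_rewrite 1 [hk]
          exact Nat.mul_div_cancel_left _ (pow_pos hp.pos 2)
        have e2 : m' / (f m') ^ 2 = k' := by
          nth_rewrite 1 [hk']
          exact Nat.mul_div_cancel_left _ (pow_pos hp'.pos 2)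
        rw [e1, e2] at h
        subst h
        have o1 := odd_of_prime_gt hp hz (lt_of_le_of_lt hP hP1)
        have o2 := odd_of_prime_gt hp' hz (lt_of_le_of_lt hP hP1')
        generalize f m = p at *
        generalize f m' = p' at *
        have hge : p + 2 ≤ p' := by
          obtain ⟨x, hx⟩ := o1
          obtain ⟨y, hy⟩ := o2
          omega
        have hk0 : 0 < k := by
          rcases Nat.eq_zero_or_pos k with h0 | h0
          · rw [h0, mul_zero] at hk; omega
          · exact h0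
        have hpn : p ≤ n := by
          by_contra hcon
          push Not at hcon
          have e1 : (n + 1) ^ 2 ≤ p ^ 2 := Nat.pow_le_pow_left hcon _
          have e2 : p ^ 2 ≤ p ^ 2 * k := Nat.le_mul_of_pos_right _ hk0
          omega
        have e3 : p ^ 2 * k + 4 * (p * k) ≤ p' ^ 2 * k := by
          calc p ^ 2 * k + 4 * (p * k) ≤ (p + 2) ^ 2 * k := by nlinarith
            _ ≤ _ := Nat.mul_le_mul_right _ (Nat.pow_le_pow_left hge _)
        have e4 : 4 * (p * k) < 2 * n := by nlinarith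
        have e5 : p * (4 * (p * k)) < n * (2 * n) := by
          calc p * (4 * (p * k)) < p * (2 * n) := Nat.mul_lt_mul_of_pos_left e4 o1.pos
            _ ≤ n * (2 * n) := Nat.mul_le_mul_right _ hpn
        nlinarith
      intro m hm m' hm' h
      rw [Finset.mem_coe] at hm hm'
      simp only at h
      have hff : f m = f m' := le_antisymm (not_lt.mp (key m' hm' m hm h.symm))
        (not_lt.mp (key m hm m' hm' h))
      obtain ⟨hp, -, hd⟩ := hf m hm
      obtain ⟨hp', -, hd'⟩ := hf m' hm'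
      rw [← Nat.div_mul_cancel hd, ← Nat.div_mul_cancel hd', h, hff]
    rw [← Finset.card_image_of_injOn hinj]
    have hP2 : (0 : ℝ) < (P1 : ℝ) ^ 2 := by positivity
    have := card_odd_le (B.image (fun m => m / (f m) ^ 2)) 0
      (((n : ℝ) + 1) ^ 2 / (P1 : ℝ) ^ 2) (by positivity) (by
        intro k hk
        rw [Finset.mem_image] at hk
        obtain ⟨m, hm, rfl⟩ := hk
        obtain ⟨hp, hP1, k, hk⟩ := hf m hm
        have hr := hrs m (Finset.mem_filter.mp (hB ▸ hm)).1
        have e1 : m / (f m) ^ 2 = k := by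
          nth_rewrite 1 [hk]
          exact Nat.mul_div_cancel_left _ (pow_pos hp.pos 2)
        rw [e1]
        have hk0 : 0 < k := by
          rcases Nat.eq_zero_or_pos k with h0 | h0
          · rw [h0, mul_zero] at hk; omega
          · exact h0
        refine ⟨by exact_mod_cast hk0, ?_⟩
        rw [lt_div_iff₀ hP2]
        have h1 : k * P1 ^ 2 < (n + 1) ^ 2 := by
          calc k * P1 ^ 2 ≤ k * (f m) ^ 2 := Nat.mul_le_mul_left _ (Nat.pow_le_pow_left hP1.le _)
            _ = m := by rw [mul_comm]; exact hk.symm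
            _ < _ := hr.2.1
        exact_mod_cast h1) (by
        intro k hk
        rw [Finset.mem_image] at hk
        obtain ⟨m, hm, rfl⟩ := hk
        obtain ⟨hp, hP1, k, hk⟩ := hf m hm
        have hr := hrs m (Finset.mem_filter.mp (hB ▸ hm)).1
        have e1 : m / (f m) ^ 2 = k := by
          nth_rewrite 1 [hk]
          exact Nat.mul_div_cancel_left _ (pow_pos hp.pos 2)
        rw [e1]
        have := rough_odd hz hr.2.2
        rw [hk] at this
        exact Nat.Odd.of_mul_right this)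
    refine this.trans (le_of_eq ?_)
    field_simp
    ring
  have hcard : ((roughSet z n).filter (fun m => ∃ p : ℕ, p.Prime ∧ z < p ∧ p ^ 2 ∣ m)).card ≤
      ∑ p ∈ primesIoc z P1, (A p).card + B.card :=
    (Finset.card_le_card hsub).trans ((Finset.card_union_le _ _).trans
      (Nat.add_le_add_right Finset.card_biUnion_le _))
  calc (((roughSet z n).filter (fun m => ∃ p : ℕ, p.Prime ∧ z < p ∧ p ^ 2 ∣ m)).card : ℝ)
      ≤ ((∑ p ∈ primesIoc z P1, (A p).card + B.card : ℕ) : ℝ) := by exact_mod_cast hcard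
    _ = ∑ p ∈ primesIoc z P1, ((A p).card : ℝ) + (B.card : ℝ) := by push_cast; rfl
    _ ≤ ∑ p ∈ primesIoc z P1, ((2 * (n : ℝ) + 1) / 2 * (1 / (p : ℝ) ^ 2) + 1) +
        (((n : ℝ) + 1) ^ 2 / (2 * (P1 : ℝ) ^ 2) + 1) :=
        add_le_add (Finset.sum_le_sum hAc) hBc
    _ = _ := by
        rw [Finset.sum_add_distrib, ← Finset.mul_sum]
        simp only [Finset.sum_const, nsmul_eq_mul, mul_one]
        ring

lemma exists_prime_of_not_cyc {m : ℕ} (hm : 0 < m) (h : ¬ Cyc m) :
    ∃ p : ℕ, p.Prime ∧ p ∣ m ∧ (p ^ 2 ∣ m ∨ ∃ q : ℕ, q.Prime ∧ q ∣ m ∧ p ∣ q - 1) := by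
  have h1 : ¬ Nat.Coprime m (Nat.totient m) := fun hc => h ⟨hm, hc⟩
  obtain ⟨p, hp, hpm, hpt⟩ := Nat.Prime.not_coprime_iff_dvd.mp h1
  refine ⟨p, hp, hpm, ?_⟩
  rw [Nat.totient_eq_prod_factorization hm.ne', Finsupp.prod,
    hp.prime.dvd_finsetProd_iff] at hpt
  obtain ⟨q, hq, hpq⟩ := hpt
  rw [Nat.support_factorization, Nat.mem_primeFactors] at hq
  rcases (hp.dvd_mul).mp hpq with h2 | h2
  · left
    have h3 : p ∣ q := hp.dvd_of_dvd_pow h2
    have h4 : p = q := (Nat.prime_dvd_prime_iff_eq hp hq.1).mp h3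
    subst h4
    have h5 : m.factorization p - 1 ≠ 0 := by
      intro h0
      rw [h0, pow_zero] at h2
      exact hp.one_lt.ne' (Nat.dvd_one.mp h2)
    exact (pow_dvd_pow p (by omega : 2 ≤ m.factorization p)).trans (Nat.ordProj_dvd m p)
  · right
    exact ⟨q, hq.1, hq.2.1, h2⟩

open Classical in
theorem noncyclic_le (z n M : ℕ) (hz : 2 ≤ z) (hM : n + 1 ≤ M) :
    ((roughSet z n).filter (fun m => ¬ Cyc m)).card ≤
      ((roughSet z n).filter (fun m => ∃ p : ℕ, p.Prime ∧ z < p ∧ p ^ 2 ∣ m)).card +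
      ∑ p ∈ primesIoc z M, (hits z n p).card := by
  have hsub : (roughSet z n).filter (fun m => ¬ Cyc m) ⊆
      (roughSet z n).filter (fun m => ∃ p : ℕ, p.Prime ∧ z < p ∧ p ^ 2 ∣ m) ∪
      (primesIoc z M).biUnion (fun p => (hits z n p).image (fun x => p * x.1 * (1 + p * x.2))) := by
    intro m hm
    rw [Finset.mem_filter] at hm
    obtain ⟨hm, hnc⟩ := hm
    have hm' := hm
    unfold roughSet at hm'
    rw [Finset.mem_filter, Finset.mem_Ioo] at hm'
    obtain ⟨⟨hm1, hm2⟩, hro⟩ := hm'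
    have hm0 : 0 < m := by omega
    obtain ⟨p, hp, hpm, h⟩ := exists_prime_of_not_cyc hm0 hnc
    rw [Finset.mem_union]
    have hzp : z < p := hro p hp hpm
    rcases h with h | ⟨q, hq, hqm, hpq⟩
    · left
      exact Finset.mem_filter.mpr ⟨hm, p, hp, hzp, h⟩
    · right
      obtain ⟨j, hj⟩ := hpq
      have hq1 : q = 1 + p * j := by
        have := hq.one_lt
        omega
      have hne : p ≠ q := by
        rintro rfl
        have h1 : p ∣ p - 1 := ⟨j, hj⟩
        have h2 := Nat.le_of_dvd (by have := hp.one_lt; omega) h1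
        have := hp.one_lt
        omega
      have hcop : Nat.Coprime p q := (Nat.coprime_primes hp hq).mpr hne
      obtain ⟨k, hk⟩ := Nat.Coprime.mul_dvd_of_dvd_of_dvd hcop hpm hqm
      have hmk : m = p * k * (1 + p * j) := by rw [hk, ← hq1]; ring
      have hk0 : 0 < k := by
        rcases Nat.eq_zero_or_pos k with h0 | h0
        · rw [h0, mul_zero] at hk; omega
        · exact h0
      have hj0 : 0 < j := by
        rcases Nat.eq_zero_or_pos j with h0 | h0
        · rw [h0, mul_zero] at hj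
          have := hq.one_lt
          omega
        · exact h0
      have o1 := odd_of_prime_gt hp hz hzp
      have o2 := odd_of_prime_gt hq hz (hro q hq hqm)
      have hje : Even j := by
        have h1 : Even (p * j) := by
          obtain ⟨c, hc⟩ := o2
          exact ⟨c, by omega⟩
        rcases Nat.even_mul.mp h1 with h2 | h2
        · exact absurd h2 (Nat.not_even_iff_odd.mpr o1)
        · exact h2
      have hkro : Rough z k := by
        intro r hr hrk
        apply hro r hr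
        rw [hk]
        exact hrk.mul_left _
      have hpos : 0 < p := hp.pos
      rw [Finset.mem_biUnion]
      refine ⟨p, ?_, ?_⟩
      · unfold primesIoc
        rw [Finset.mem_filter, Finset.mem_Ioc]
        refine ⟨⟨hzp, ?_⟩, hp⟩
        by_contra hcon
        push Not at hcon
        have e1 : p * p ≤ m := by
          rw [hmk]
          calc p * p = p * 1 * (p * 1) := by ring
            _ ≤ p * k * (p * j) :=
              Nat.mul_le_mul (Nat.mul_le_mul_left _ hk0) (Nat.mul_le_mul_left _ hj0)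
            _ ≤ _ := Nat.mul_le_mul_left _ (by omega)
        have e2 : (n + 1) * (n + 1) ≤ p * p := Nat.mul_le_mul (by omega) (by omega)
        have e3 : (n + 1) ^ 2 = (n + 1) * (n + 1) := by ring
        omega
      · rw [Finset.mem_image]
        refine ⟨(k, j), ?_, hmk.symm⟩
        unfold hits
        rw [Finset.mem_filter, Finset.mem_product, Finset.mem_range, Finset.mem_range]
        refine ⟨⟨?_, ?_⟩, hk0, hj0, hje, hkro, by rw [← hmk]; exact hm1, by rw [← hmk]; exact hm2⟩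
        · calc k ≤ m := by
                rw [hmk]
                calc k = 1 * k * 1 := by ring
                  _ ≤ _ := Nat.mul_le_mul (Nat.mul_le_mul_right _ hpos) (by omega)
            _ < _ := hm2
        · calc j ≤ m := by
                rw [hmk]
                calc j = 1 * 1 * (1 * j) := by ring
                  _ ≤ p * k * (p * j) := Nat.mul_le_mul (Nat.mul_le_mul hpos hk0)
                      (Nat.mul_le_mul_right _ hpos)
                  _ ≤ _ := Nat.mul_le_mul_left _ (by omega)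
            _ < _ := hm2
  refine (Finset.card_le_card hsub).trans ((Finset.card_union_le _ _).trans
    (Nat.add_le_add_left ?_ _))
  exact Finset.card_biUnion_le.trans (Finset.sum_le_sum fun p _ => Finset.card_image_le)

/-- Products of two primes. -/
theorem cyc_mul (p q : ℕ) (hp : p.Prime) (hq : q.Prime) (hpq : p < q) (h : ¬ p ∣ q - 1) :
    Cyc (p * q) := by
  have hcop : Nat.Coprime p q := (Nat.coprime_primes hp hq).mpr hpq.ne
  refine ⟨Nat.mul_pos hp.pos hq.pos, ?_⟩
  rw [Nat.totient_mul hcop, Nat.totient_prime hp, Nat.totient_prime hq]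
  have hp1 := hp.one_lt
  have a1 : Nat.Coprime p (p - 1) := by
    rw [hp.coprime_iff_not_dvd]
    intro hd
    have := Nat.le_of_dvd (by omega) hd
    omega
  have a2 : Nat.Coprime p (q - 1) := hp.coprime_iff_not_dvd.mpr h
  have a3 : Nat.Coprime q (p - 1) := by
    rw [hq.coprime_iff_not_dvd]
    intro hd
    have := Nat.le_of_dvd (by omega) hd
    omega
  have a4 : Nat.Coprime q (q - 1) := by
    rw [hq.coprime_iff_not_dvd]
    intro hd
    have := Nat.le_of_dvd (by omega) hd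
    omega
  exact Nat.Coprime.mul_left (Nat.Coprime.mul_right a1 a2) (Nat.Coprime.mul_right a3 a4)

end Pool.Agent.Helper27.TC
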